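import Mathlib

set_option autoImplicit false

universe u

namespace Pool.Agent.Results.MP_cc6d20_al.SemiSeparated

/-- Terms in two binary operation symbols; `ld s t` is the term `s \ t` and `rd s t` is `s / t`. -/
inductive BTerm : Type
  | var : ℕ → BTerm
  | ld : BTerm → BTerm → BTerm
  | rd : BTerm → BTerm → BTerm

/-- Value of a term in the bimagma `(S, l, r)` (`l x y = x \ y`, `r x y = x / y`) under the
assignment `v`. -/
def BTerm.eval {S : Type u} (l r : S → S → S) (v : ℕ → S) : BTerm → S
  | BTerm.var n => v n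
  | BTerm.ld s t => l (BTerm.eval l r v s) (BTerm.eval l r v t)
  | BTerm.rd s t => r (BTerm.eval l r v s) (BTerm.eval l r v t)

/-- The symbol `\` occurs in the term. -/
def BTerm.usesLd : BTerm → Prop
  | BTerm.var _ => False
  | BTerm.ld _ _ => True
  | BTerm.rd s t => BTerm.usesLd s ∨ BTerm.usesLd t

/-- The symbol `/` occurs in the term. -/
def BTerm.usesRd : BTerm → Prop
  | BTerm.var _ => False
  | BTerm.ld s t => BTerm.usesRd s ∨ BTerm.usesRd t
  | BTerm.rd _ _ => True

/-- An identity: a pair of terms. -/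
abbrev Ident : Type := BTerm × BTerm

/-- The bimagma `(S, l, r)` satisfies the identity `e`. -/
def Sat {S : Type u} (l r : S → S → S) (e : Ident) : Prop :=
  ∀ v : ℕ → S, e.1.eval l r v = e.2.eval l r v

/-- The identity involves both operations: both symbols occur in it. -/
def InvolvesBoth (e : Ident) : Prop :=
  (e.1.usesLd ∨ e.2.usesLd) ∧ (e.1.usesRd ∨ e.2.usesRd)

/-- At most two identities of the set involve both operations. -/
def IsSemiSeparated (A : Set Ident) : Prop := {e | e ∈ A ∧ InvolvesBoth e}.encard ≤ 2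

/-- `(S, mul)` is an inverse semigroup and `inv x` is the unique inverse of `x`. -/
structure IsInverseSemigroup {S : Type u} (mul : S → S → S) (inv : S → S) : Prop where
  assoc : ∀ x y z, mul (mul x y) z = mul x (mul y z)
  mul_inv_mul : ∀ x, mul (mul x (inv x)) x = x
  inv_mul_inv : ∀ x, mul (mul (inv x) x) (inv x) = inv x
  unique : ∀ x y, mul (mul x y) x = x → mul (mul y x) y = y → y = inv x

/-- `(S, l, r)` is the division bimagma of some inverse semigroup on `S`:
`x \ y = x' y` and `x / y = x y'`. -/
def IsDivisionBimagma {S : Type u} (l r : S → S → S) : Prop :=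
  ∃ (mul : S → S → S) (inv : S → S), IsInverseSemigroup mul inv ∧
    (∀ x y, l x y = mul (inv x) y) ∧ (∀ x y, r x y = mul x (inv y))

/-- The set `A` of identities characterizes inverse semigroups in terms of their division
bimagmas. -/
def Characterizes (A : Set Ident) : Prop :=
  ∀ (S : Type u) (l r : S → S → S), (∀ e ∈ A, Sat l r e) ↔ IsDivisionBimagma l r

/-- The axioms, written out for two operations. -/
structure Ax {S : Type u} (l r : S → S → S) : Prop where
  T1 : ∀ x y z, l (r x y) z = r y (l z x)
  T2 : ∀ x, l (r x x) x = x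
  bR : ∀ x y, r (r x x) (r y y) = r (r y y) (r x x)
  mR : ∀ x y, r (r (r x y) (r x y)) (r x x) = r (r x y) (r x y)
  pR : ∀ x y z w, r (r x (r y z)) w = r x (r w (r z y))
  bL : ∀ x y, l (l x x) (l y y) = l (l y y) (l x x)
  mL : ∀ x y, l (l x x) (l (l y x) (l y x)) = l (l y x) (l y x)
  pL : ∀ x y z w, l w (l (l z y) x) = l (l (l y z) w) x

section forward

variable {S : Type u} {l r : S → S → S}

lemma D1 (h : Ax l r) (x : S) : r x (l x x) = x := by
  have := h.T1 x x x
  rw [h.T2] at this
  exact this.symm

lemma D2 (h : Ax l r) (x z : S) : l x z = r (l x x) (l z x) := by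
  have := h.T1 x (l x x) z
  rwa [D1 h] at this

lemma D2' (h : Ax l r) (y x : S) : r y x = l (r x y) (r x x) := by
  have := h.T1 x y (r x x)
  rw [h.T2] at this
  exact this.symm

lemma D3 (h : Ax l r) (x : S) : r (l x x) (l x x) = l x x := (D2 h x x).symm

lemma D3' (h : Ax l r) (x : S) : l (r x x) (r x x) = r x x := (D2' h x x).symm

lemma E_r (h : Ax l r) (x : S) : r (r x x) (r x x) = r x x := by
  have := D3 h (r x x)
  rwa [D3' h] at this

lemma E_l (h : Ax l r) (x : S) : l (l x x) (l x x) = l x x := by
  have := D3' h (l x x)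
  rwa [D3 h] at this

lemma E_lr (h : Ax l r) {x : S} (hx : l x x = x) : r x x = x := by
  have := D3 h x
  rwa [hx] at this

lemma E_rl (h : Ax l r) {x : S} (hx : r x x = x) : l x x = x := by
  have := D3' h x
  rwa [hx] at this

lemma commR (h : Ax l r) {x y : S} (hx : r x x = x) (hy : r y y = y) : r x y = r y x := by
  have := h.bR x y
  rwa [hx, hy] at this

lemma commL (h : Ax l r) {x y : S} (hx : r x x = x) (hy : r y y = y) : l x y = l y x := by
  have := h.bL x y
  rwa [E_rl h hx, E_rl h hy] at this

lemma assocR (h : Ax l r) {x y : S} (a : S) (hx : r x x = x) (hy : r y y = y) :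
    r (r a x) y = r a (r x y) := by
  have := h.pR a x x y
  rw [hx] at this
  rw [this, commR h hx hy]

lemma assocL (h : Ax l r) {x y : S} (a : S) (hx : r x x = x) (hy : r y y = y) :
    l x (l y a) = l (l x y) a := by
  have := h.pL a y y x
  rw [E_rl h hy] at this
  rw [this, commL h hx hy]

lemma D5 (h : Ax l r) {x y : S} (hx : r x x = x) (hy : r y y = y) : r x (l x y) = l x y := by
  have := D2 h x y
  rw [E_rl h hx, commL h hy hx] at this
  exact this.symm

lemma D5' (h : Ax l r) {x y : S} (hx : r x x = x) (hy : r y y = y) : l (r x y) y = r x y := by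
  have := D2' h x y
  rw [hy, commR h hy hx] at this
  exact this.symm

lemma D6 (h : Ax l r) {x y : S} (hx : r x x = x) (hy : r y y = y) :
    r (r x y) (r x y) = r x y := by
  apply E_lr h
  rw [h.T1 x y (r x y), h.T1 x y x, E_rl h hx, ← assocR h y hy hx, hy, commR h hy hx]

lemma D6' (h : Ax l r) {x y : S} (hx : r x x = x) (hy : r y y = y) :
    r (l x y) (l x y) = l x y := by
  rw [← h.T1 y (l x y) x, ← h.T1 y y x, hy, ← assocL h x hy hx, E_rl h hx, commL h hy hx]

lemma D7 (h : Ax l r) {x y : S} (hx : r x x = x) (hy : r y y = y) : l x y = r x y := by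
  have hw := D6' h hx hy
  have hw' := D6 h hx hy
  have e1 : r x (l x y) = l x y := D5 h hx hy
  have e2 : r y (l x y) = l x y := by
    rw [commL h hx hy]; exact D5 h hy hx
  have e3 : l (r x y) y = r x y := D5' h hx hy
  have e4 : l (r x y) x = r x y := by
    rw [commR h hx hy]; exact D5' h hy hx
  have e5 : r (l x y) (r x y) = l x y := by
    rw [← assocR h _ hx hy, commR h hw hx, e1, commR h hw hy, e2]
  have e6 : l (r x y) (l x y) = r x y := by
    rw [assocL h y hw' hx, e4, e3]
  have e7 : r (l x y) (l (r x y) (l x y)) = l (r x y) (l x y) := by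
    rw [commL h hw' hw]; exact D5 h hw hw'
  rw [e6, e5] at e7
  exact e7

/-- The inverse, `x' = x \ (x / x)`. -/
lemma inv_eq (h : Ax l r) (x : S) : l x (r x x) = r (l x x) x := by
  rw [D2 h x (r x x), h.T2]

lemma T4 (h : Ax l r) (x y : S) : l (r x y) (r (r x y) (r x y)) = r y x := by
  have hx := E_r h x
  have ha := E_r h (r x y)
  have e1 : l (r x x) (r x y) = r x y := by
    have e2 : l (r x x) (l (r (r x y) (r x y)) (r x y)) = r x y := by
      rw [assocL h _ hx ha, D7 h hx ha, commR h hx ha, h.mR, h.T2]
    rwa [h.T2] at e2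
  rw [inv_eq h, D2' h y x, D2 h (r x y) (r x x), e1]

lemma T4' (h : Ax l r) (x y : S) : l (l x y) (r (l x y) (l x y)) = l y x := by
  have hy := D3 h y
  have ha := D3 h (l x y)
  have e1 : r (l x y) (l y y) = l x y := by
    have e2 : r (r (l x y) (l (l x y) (l x y))) (l y y) = l x y := by
      rw [assocR h _ ha hy, ← D7 h ha hy, commL h ha hy, h.mL, D1 h]
    rwa [D1 h] at e2
  rw [D2 h y x, D2' h (l y y) (l x y), e1]

lemma inv_inv' (h : Ax l r) (x : S) :
    l (l x (r x x)) (r (l x (r x x)) (l x (r x x))) = x := by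
  have := T4 h (l x x) x
  rw [D1 h] at this
  rw [inv_eq h x]
  exact this

lemma assocR' (h : Ax l r) (x w a : S) : r x (r w a) = r (r x (l a (r a a))) w := by
  have := h.pR x (l a a) a w
  rw [D1 h] at this
  rw [← this, inv_eq h]

lemma assocL' (h : Ax l r) (x w a : S) : l (l a w) x = l w (l (l a (r a a)) x) := by
  have := h.pL x (r a a) a w
  rw [h.T2] at this
  exact this.symm

lemma ef (h : Ax l r) (x : S) :
    r x x = l (l x (r x x)) (l x (r x x)) := by
  have key : ∀ z : S, r (l z (r z z)) (l z (r z z)) =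
      r (r (l z (r z z)) (l z (r z z))) (l z z) := by
    intro z
    have h1 := assocR' h (l z (r z z)) (l z z) z
    rw [← inv_eq h] at h1
    exact h1
  have key' : ∀ z : S, l (l z (r z z)) (l z (r z z)) =
      l (r z z) (l (l z (r z z)) (l z (r z z))) := by
    intro z
    exact assocL' h (l z (r z z)) (r z z) z
  have k1 := key (l x (r x x))
  rw [inv_inv' h] at k1
  have k2 := key' x
  rw [D7 h (E_r h x) (D3 h _)] at k2
  exact k1.trans k2.symm

lemma forward (h : Ax l r) : IsDivisionBimagma l r := by
  -- the product and the inverse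
  obtain ⟨inv, hinv⟩ : ∃ inv : S → S, ∀ x, inv x = l x (r x x) := ⟨fun x => l x (r x x), fun _ => rfl⟩
  obtain ⟨m, hm⟩ : ∃ m : S → S → S, ∀ x y, m x y = r x (inv y) :=
    ⟨fun x y => r x (inv y), fun _ _ => rfl⟩
  have ii : ∀ x, inv (inv x) = x := by
    intro x; rw [hinv x, hinv]; exact inv_inv' h x
  have ir : ∀ x y, inv (r x y) = r y x := by
    intro x y; rw [hinv]; exact T4 h x y
  have il : ∀ x y, inv (l x y) = l y x := by
    intro x y; rw [hinv]; exact T4' h x y
  have rm : ∀ x y, r x y = m x (inv y) := by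
    intro x y; rw [hm, ii]
  have im : ∀ x y, inv (m x y) = m (inv y) (inv x) := by
    intro x y; rw [hm, ir, hm, ii]
  have massoc : ∀ x y z, m (m x y) z = m x (m y z) := by
    intro x y z
    rw [hm (m x y) z, hm x y, hm x (m y z), im, hm (inv z) (inv y), ii, assocR' h x (inv z) y,
      ← hinv]
  have ief : ∀ x, r (inv x) (inv x) = l x x := by
    intro x
    have := ef h (inv x)
    rw [← hinv, ii] at this
    exact this
  have mee : ∀ x, m x (inv x) = r x x := by
    intro x; rw [hm, ii]
  have mff : ∀ x, m (inv x) x = l x x := by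
    intro x; rw [hm, ief]
  have h1 : ∀ x, m (m x (inv x)) x = x := by
    intro x
    rw [massoc, mff, hm, il, D1 h]
  have h2 : ∀ x, m (m (inv x) x) (inv x) = inv x := by
    intro x
    have := h1 (inv x)
    rwa [ii] at this
  -- idempotents
  have idem : ∀ g, m g g = g → inv g = g := by
    intro g hg
    have hg' : m (inv g) (inv g) = inv g := by rw [← im, hg]
    have c : m (m g (inv g)) (m (inv g) g) = m (m (inv g) g) (m g (inv g)) := by
      rw [mee, mff, hm, hm, il, ir]
      exact commR h (E_r h g) (D3 h g)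
    have c1 : m (m g (inv g)) (m (inv g) g) = g := by
      rw [massoc, ← massoc (inv g) (inv g) g, hg', ← massoc, h1]
    have c2 : m (m (inv g) g) (m g (inv g)) = inv g := by
      rw [massoc, ← massoc g g (inv g), hg, ← massoc, h2]
    rw [← c2, ← c, c1]
  have idem2 : ∀ g, m g g = g → r g g = g := by
    intro g hg
    rw [rm, idem g hg, hg]
  have icomm : ∀ g k, m g g = g → m k k = k → m g k = m k g := by
    intro g k hg hk
    rw [hm, hm, idem g hg, idem k hk]
    exact commR h (idem2 g hg) (idem2 k hk)
  have uniq : ∀ x y, m (m x y) x = x → m (m y x) y = y → y = inv x := by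
    intro x y hx hy
    have i1 : m (m y x) (m y x) = m y x := by rw [← massoc, hy]
    have i2 : m (m x y) (m x y) = m x y := by rw [← massoc, hx]
    have i3 : m (m (inv x) x) (m (inv x) x) = m (inv x) x := by rw [← massoc, h2]
    have i4 : m (m x (inv x)) (m x (inv x)) = m x (inv x) := by rw [← massoc, h1]
    have a1 : m y x = m (inv x) x := by
      have e1 : m (m y x) (m (inv x) x) = m y x := by
        rw [massoc, ← massoc x, h1]
      have e2 : m (m (inv x) x) (m y x) = m (inv x) x := by
        rw [massoc, ← massoc x, hx]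
      rw [← e1, icomm _ _ i1 i3, e2]
    have a2 : m x y = m x (inv x) := by
      have e1 : m (m x (inv x)) (m x y) = m x y := by
        rw [← massoc, h1]
      have e2 : m (m x y) (m x (inv x)) = m x (inv x) := by
        rw [← massoc, hx]
      rw [← e1, icomm _ _ i4 i2, e2]
    calc y = m (m y x) y := hy.symm
      _ = m (m (inv x) x) y := by rw [a1]
      _ = m (inv x) (m x y) := massoc _ _ _
      _ = m (inv x) (m x (inv x)) := by rw [a2]
      _ = m (m (inv x) x) (inv x) := (massoc _ _ _).symm
      _ = inv x := h2 x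
  -- the left division
  have lu : ∀ g z, r g g = g → l g z = m g z := by
    intro g z hg
    have e1 : l g (l (r z z) z) = r g (inv z) := by
      rw [assocL h _ hg (E_r h z), D7 h hg (E_r h z), commR h hg (E_r h z), h.T1, hinv]
    rw [h.T2] at e1
    rw [e1, hm]
  have mixed : ∀ x y z, l (inv (m y x)) z = m y (l (inv x) z) := by
    intro x y z
    rw [hm y x, ir, h.T1, rm, il]
  have lm : ∀ x z, l (inv x) z = m x z := by
    intro x z
    have e1 : m x (l x x) = x := by rw [hm, il, D1 h]
    have e2 := mixed (l x x) x z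
    rw [e1, il, lu _ z (D3 h x), ← massoc, e1] at e2
    exact e2
  refine ⟨m, inv, ⟨massoc, h1, h2, uniq⟩, ?_, rm⟩
  intro x y
  rw [← lm, ii]

end forward

section backward

variable {S : Type u} {mul : S → S → S} {inv : S → S}

lemma bw_ii (h : IsInverseSemigroup mul inv) (x : S) : inv (inv x) = x :=
  (h.unique (inv x) x (h.inv_mul_inv x) (h.mul_inv_mul x)).symm

lemma bw_idem_prod (h : IsInverseSemigroup mul inv) {e f : S} (he : mul e e = e)
    (hf : mul f f = f) : mul (mul e f) (mul e f) = mul e f := by
  -- `g = f (e f)' e` is an idempotent inverse of `e f`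
  obtain ⟨t, ht⟩ : ∃ t, t = inv (mul e f) := ⟨_, rfl⟩
  have A := h.assoc
  have t1 : mul (mul (mul e f) t) (mul e f) = mul e f := by rw [ht]; exact h.mul_inv_mul _
  have t2 : mul (mul t (mul e f)) t = t := by rw [ht]; exact h.inv_mul_inv _
  obtain ⟨g, hg⟩ : ∃ g, g = mul f (mul t e) := ⟨_, rfl⟩
  have g1 : mul (mul (mul e f) g) (mul e f) = mul e f := by
    have : mul (mul (mul e f) g) (mul e f) = mul (mul (mul e f) t) (mul e f) := by
      rw [hg]
      simp only [A]
      rw [← A f f, hf, ← A e e f, he]
    rw [this, t1]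
  have g2 : mul (mul g (mul e f)) g = g := by
    have : mul (mul g (mul e f)) g = mul f (mul (mul (mul t (mul e f)) t) e) := by
      rw [hg]
      simp only [A]
      rw [← A e e, he, ← A f f, hf]
    rw [this, t2, hg]
  have g3 : mul g g = g := by
    have : mul g g = mul f (mul (mul (mul t (mul e f)) t) e) := by
      rw [hg]
      simp only [A]
    rw [this, t2, hg]
  -- `g` is idempotent, so it is its own inverse
  have g4 : g = inv g := h.unique g g (by rw [g3, g3]) (by rw [g3, g3])
  have g5 : mul e f = inv g := h.unique g (mul e f) g2 g1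
  rw [g5, ← g4, g3]

lemma bw_idem_comm (h : IsInverseSemigroup mul inv) {e f : S} (he : mul e e = e)
    (hf : mul f f = f) : mul e f = mul f e := by
  have A := h.assoc
  have h1 := bw_idem_prod h he hf
  have h2 := bw_idem_prod h hf he
  have h3 : mul e f = inv (mul e f) := h.unique _ _ (by rw [h1, h1]) (by rw [h1, h1])
  have h4 : mul f e = inv (mul e f) := by
    apply h.unique
    · have : mul (mul (mul e f) (mul f e)) (mul e f) = mul (mul e f) (mul e f) := by
        simp only [A]
        rw [← A f f, hf, ← A e e, he]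
      rw [this, h1]
    · have : mul (mul (mul f e) (mul e f)) (mul f e) = mul (mul f e) (mul f e) := by
        simp only [A]
        rw [← A e e, he, ← A f f, hf]
      rw [this, h2]
  rw [h3, h4]

lemma bw_ee (h : IsInverseSemigroup mul inv) (x : S) :
    mul (mul x (inv x)) (mul x (inv x)) = mul x (inv x) := by
  rw [← h.assoc, h.mul_inv_mul]

lemma bw_ff (h : IsInverseSemigroup mul inv) (x : S) :
    mul (mul (inv x) x) (mul (inv x) x) = mul (inv x) x := by
  rw [← h.assoc, h.inv_mul_inv]

lemma bw_im (h : IsInverseSemigroup mul inv) (x y : S) :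
    inv (mul x y) = mul (inv y) (inv x) := by
  have A := h.assoc
  have c := bw_idem_comm h (bw_ff h x) (bw_ee h y)
  symm
  apply h.unique
  · calc mul (mul (mul x y) (mul (inv y) (inv x))) (mul x y)
        = mul x (mul (mul (mul y (inv y)) (mul (inv x) x)) y) := by simp only [A]
      _ = mul x (mul (mul (mul (inv x) x) (mul y (inv y))) y) := by rw [c]
      _ = mul (mul (mul x (inv x)) x) (mul (mul y (inv y)) y) := by simp only [A]
      _ = mul x y := by rw [h.mul_inv_mul, h.mul_inv_mul]
  · calc mul (mul (mul (inv y) (inv x)) (mul x y)) (mul (inv y) (inv x))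
        = mul (inv y) (mul (mul (mul (inv x) x) (mul y (inv y))) (inv x)) := by simp only [A]
      _ = mul (inv y) (mul (mul (mul y (inv y)) (mul (inv x) x)) (inv x)) := by rw [c]
      _ = mul (mul (mul (inv y) y) (inv y)) (mul (mul (inv x) x) (inv x)) := by simp only [A]
      _ = mul (inv y) (inv x) := by rw [h.inv_mul_inv, h.inv_mul_inv]

lemma backward {l r : S → S → S} (hd : IsDivisionBimagma l r) : Ax l r := by
  obtain ⟨mul, inv, h, hl, hr⟩ := hd
  have A := h.assoc
  have ii := bw_ii h
  have im := bw_im h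
  have e0 : ∀ x, mul (mul x (inv x)) x = x := h.mul_inv_mul
  have f0 : ∀ x, mul (mul (inv x) x) (inv x) = inv x := h.inv_mul_inv
  refine ⟨?_, ?_, ?_, ?_, ?_, ?_, ?_, ?_⟩
  · intro x y z
    simp only [hl, hr, im, ii, A]
  · intro x
    simp only [hl, hr, im, ii]
    exact e0 x
  · intro x y
    simp only [hr, im, ii]
    exact bw_idem_comm h (bw_ee h x) (bw_ee h y)
  · intro x y
    simp only [hr, im, ii]
    rw [A _ _ (mul x (inv x)), A y (inv x) (mul x (inv x)), ← A (inv x) x (inv x), f0]
  · intro x y z w
    simp only [hr, im, ii, A]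
  · intro x y
    simp only [hl, im, ii]
    exact bw_idem_comm h (bw_ff h x) (bw_ff h y)
  · intro x y
    simp only [hl, im, ii]
    rw [← A (mul (inv x) x) (mul (inv x) y), ← A (mul (inv x) x) (inv x) y, f0]
  · intro x y z w
    simp only [hl, im, ii, A]

end backward

/-- The variables `x, y, z, w`. -/
def x : BTerm := BTerm.var 0
def y : BTerm := BTerm.var 1
def z : BTerm := BTerm.var 2
def w : BTerm := BTerm.var 3

/-- `(x/y)\z = y/(z\x)`. -/
def idT1 : Ident := (.ld (.rd x y) z, .rd y (.ld z x))
/-- `(x/x)\x = x`. -/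
def idT2 : Ident := (.ld (.rd x x) x, x)
/-- `(x/x)/(y/y) = (y/y)/(x/x)`. -/
def idbR : Ident := (.rd (.rd x x) (.rd y y), .rd (.rd y y) (.rd x x))
/-- `((x/y)/(x/y))/(x/x) = (x/y)/(x/y)`. -/
def idmR : Ident := (.rd (.rd (.rd x y) (.rd x y)) (.rd x x), .rd (.rd x y) (.rd x y))
/-- `(x/(y/z))/w = x/(w/(z/y))`. -/
def idpR : Ident := (.rd (.rd x (.rd y z)) w, .rd x (.rd w (.rd z y)))
/-- `(x\x)\(y\y) = (y\y)\(x\x)`. -/
def idbL : Ident := (.ld (.ld x x) (.ld y y), .ld (.ld y y) (.ld x x))
/-- `(x\x)\((y\x)\(y\x)) = (y\x)\(y\x)`. -/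
def idmL : Ident := (.ld (.ld x x) (.ld (.ld y x) (.ld y x)), .ld (.ld y x) (.ld y x))
/-- `w\((z\y)\x) = ((y\z)\w)\x`. -/
def idpL : Ident := (.ld w (.ld (.ld z y) x), .ld (.ld (.ld y z) w) x)

/-- The basis. Only the first two identities involve both operations. -/
def basis : Set Ident := {idT1, idT2, idbR, idmR, idpR, idbL, idmL, idpL}

lemma sat_iff {S : Type u} (l r : S → S → S) : (∀ e ∈ basis, Sat l r e) ↔ Ax l r := by
  constructor
  · intro h
    have key : ∀ a b c d : S, ∃ v : ℕ → S, v 0 = a ∧ v 1 = b ∧ v 2 = c ∧ v 3 = d := by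
      intro a b c d
      exact ⟨fun n => if n = 0 then a else if n = 1 then b else if n = 2 then c else d,
        by simp, by simp, by simp, by simp⟩
    refine ⟨?_, ?_, ?_, ?_, ?_, ?_, ?_, ?_⟩
    · intro a b c
      obtain ⟨v, h0, h1, h2, h3⟩ := key a b c a
      have := h idT1 (by simp [basis]) v
      simpa [idT1, x, y, z, BTerm.eval, h0, h1, h2, h3] using this
    · intro a
      obtain ⟨v, h0, h1, h2, h3⟩ := key a a a a
      have := h idT2 (by simp [basis]) v
      simpa [idT2, x, BTerm.eval, h0, h1, h2, h3] using this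
    · intro a b
      obtain ⟨v, h0, h1, h2, h3⟩ := key a b a a
      have := h idbR (by simp [basis]) v
      simpa [idbR, x, y, BTerm.eval, h0, h1, h2, h3] using this
    · intro a b
      obtain ⟨v, h0, h1, h2, h3⟩ := key a b a a
      have := h idmR (by simp [basis]) v
      simpa [idmR, x, y, BTerm.eval, h0, h1, h2, h3] using this
    · intro a b c d
      obtain ⟨v, h0, h1, h2, h3⟩ := key a b c d
      have := h idpR (by simp [basis]) v
      simpa [idpR, x, y, z, w, BTerm.eval, h0, h1, h2, h3] using this
    · intro a b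
      obtain ⟨v, h0, h1, h2, h3⟩ := key a b a a
      have := h idbL (by simp [basis]) v
      simpa [idbL, x, y, BTerm.eval, h0, h1, h2, h3] using this
    · intro a b
      obtain ⟨v, h0, h1, h2, h3⟩ := key a b a a
      have := h idmL (by simp [basis]) v
      simpa [idmL, x, y, BTerm.eval, h0, h1, h2, h3] using this
    · intro a b c d
      obtain ⟨v, h0, h1, h2, h3⟩ := key a b c d
      have := h idpL (by simp [basis]) v
      simpa [idpL, x, y, z, w, BTerm.eval, h0, h1, h2, h3] using this
  · intro h e he
    simp only [basis, Set.mem_insert_iff, Set.mem_singleton_iff] at he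
    rcases he with rfl | rfl | rfl | rfl | rfl | rfl | rfl | rfl
    · exact fun v => h.T1 _ _ _
    · exact fun v => h.T2 _
    · exact fun v => h.bR _ _
    · exact fun v => h.mR _ _
    · exact fun v => h.pR _ _ _ _
    · exact fun v => h.bL _ _
    · exact fun v => h.mL _ _
    · exact fun v => h.pL _ _ _ _

lemma basis_semiSeparated : IsSemiSeparated basis := by
  have hsub : {e | e ∈ basis ∧ InvolvesBoth e} ⊆ ({idT1, idT2} : Set Ident) := by
    rintro e ⟨he, hb⟩
    simp only [basis, Set.mem_insert_iff, Set.mem_singleton_iff] at he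
    rcases he with rfl | rfl | rfl | rfl | rfl | rfl | rfl | rfl
    · simp
    · simp
    · simp [InvolvesBoth, idbR, x, y, BTerm.usesLd] at hb
    · simp [InvolvesBoth, idmR, x, y, BTerm.usesLd] at hb
    · simp [InvolvesBoth, idpR, x, y, z, w, BTerm.usesLd] at hb
    · simp [InvolvesBoth, idbL, x, y, BTerm.usesRd] at hb
    · simp [InvolvesBoth, idmL, x, y, BTerm.usesRd] at hb
    · simp [InvolvesBoth, idpL, x, y, z, w, BTerm.usesRd] at hb
  refine (Set.encard_le_encard hsub).trans ?_
  refine (Set.encard_insert_le _ _).trans ?_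
  rw [Set.encard_singleton]
  norm_num

theorem basis_characterizes : Characterizes.{u} basis := by
  intro S l r
  rw [sat_iff]
  exact ⟨forward, backward⟩

/-- The explicit finite set `basis` of eight identities is semi-separated and characterizes
inverse semigroups in terms of their division bimagmas. -/
theorem result : basis.Finite ∧ IsSemiSeparated basis ∧ Characterizes.{u} basis :=
  ⟨by simp [basis], basis_semiSeparated, basis_characterizes⟩

end Pool.Agent.Results.MP_cc6d20_al.SemiSeparated
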